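import Pool.Agent.helper47.MSW.SpecB

set_option autoImplicit false

namespace Pool.Agent.MSW

open Equiv Finset Function MeasureTheory Pool.Agent.helper48.PP
open Pool.Agent.DSW (Pr Has GP wt)
open scoped ENNReal Classical

noncomputable section

theorem RCZ_zrp (s : ℕ) (i t : Fin (s + 1)) :
    zrp s (finProdFinEquiv (i, t)) = finProdFinEquiv (Fin.rev i, t) := by
  simp [zrp]

theorem RCZ_rev (s : ℕ) (i t : Fin (s + 1)) :
    Fin.rev (finProdFinEquiv (i, t)) = finProdFinEquiv (Fin.rev i, Fin.rev t) := by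
  apply Fin.ext
  simp only [Fin.val_rev, finProdFinEquiv_apply_val]
  have hi := i.2
  have ht := t.2
  obtain ⟨a, ha⟩ : ∃ a, (i : ℕ) + a = s := ⟨s - i, by omega⟩
  have h1 : s + 1 - ((i : ℕ) + 1) = a := by omega
  rw [h1]
  have h2 : (s + 1) * (s + 1) = (s + 1) * (i : ℕ) + (s + 1) * a + (s + 1) := by
    have h3 : (s + 1) * ((i : ℕ) + a) + (s + 1) = (s + 1) * (s + 1) := by
      rw [ha]
      ring
    rw [← h3]
    ring
  omega

theorem RCZ_rc (s : ℕ) : RC (zr s) := by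
  intro j
  show zrp s (Fin.rev j) = Fin.rev (zrp s j)
  obtain ⟨⟨i, t⟩, rfl⟩ : ∃ p : Fin (s + 1) × Fin (s + 1), finProdFinEquiv p = (j : Fin ((s + 1) * (s + 1))) :=
    (finProdFinEquiv (m := s + 1) (n := s + 1)).surjective j
  rw [RCZ_rev, RCZ_zrp, RCZ_zrp, RCZ_rev]

theorem RCZ_sw (ε : Bool) : RC (sw ε) := by
  cases ε
  · intro j
    show (Equiv.swap (0 : Fin 2) 1) (Fin.rev j) = Fin.rev ((Equiv.swap (0 : Fin 2) 1) j)
    revert j
    decide
  · intro j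
    rfl

theorem RCZ_iz (s M : ℕ) (hM : (s + 1) ^ 2 ≤ M) : Adm M (Iz s) := by
  intro b hb
  have h1 : b = zr s := List.eq_of_mem_replicate hb
  subst h1
  refine ⟨?_, RCZ_rc s⟩
  show (s + 1) * s + s + 1 ≤ M
  have h2 : (s + 1) * s + s + 1 = (s + 1) ^ 2 := by ring
  rw [h2]
  exact hM

theorem RCZ_sw1 (M : ℕ) (ε : Bool) (hM : 2 ≤ M) : Adm M [sw ε] := by
  intro b hb
  rw [List.mem_singleton] at hb
  subst hb
  refine ⟨?_, RCZ_sw ε⟩
  cases ε <;> exact hM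

theorem RCZ : RCZ_stmt := by
  refine ⟨RCZ_zrp, RCZ_iz, ?_, RCZ_sw1⟩
  intro s M ε h1 h2 b hb
  unfold Blk at hb
  rw [List.mem_append, List.mem_append] at hb
  rcases hb with (hb | hb) | hb
  · exact RCZ_iz s M h1 b hb
  · exact RCZ_sw1 M ε h2 b hb
  · exact RCZ_iz s M h1 b hb

end

end Pool.Agent.MSW
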